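import Pool.Agent.MP_54d89f_nt.Dw.Tail
import Pool.Agent.MP_54d89f_nt.Dw.Teich
import Pool.Agent.MP_54d89f_nt.Dw.Lam
import Pool.Agent.MP_54d89f_nt.Dw.Bnd
import Pool.Agent.MP_54d89f_nt.Dw.Mah
import Pool.Agent.MP_54d89f_nt.Dw.Rob
import Pool.Agent.MP_54d89f_nt.Dw.Th
import Pool.Agent.MP_54d89f_nt.Dw.Gau
import Pool.Agent.MP_54d89f_nt.Dw.JacI
import Pool.Agent.MP_54d89f_nt.Dw.Root

namespace Pool.Agent.MP_54d89f_nt.Old.DworkCM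

open Finset Pool.Agent.MP_030fd4_nt

theorem result (p : ℕ) [Fact p.Prime] (hp : 3 < p) (a S Q : ℕ → ℚ_[p])
    (ha : ∀ k : ℕ, a k = (((2 * k).choose k : ℕ) : ℚ_[p]) ^ 3 / 16 ^ k)
    (hS : ∀ N : ℕ, S N = ∑ k ∈ range N, a k)
    (hQ : ∀ N : ℕ, Q N = ∑ k ∈ range N, (3 * (k : ℚ_[p]) + 1) * (3 * (k : ℚ_[p]) + 2) * a k)
    (z u : ℤ_[p]) (hz : 6 * z = 1)
    (hu : u = (-1) ^ ((p + 1) / 2) * gammaP p z ^ 2 * gammaP p (2 * z) ^ 2) :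
    IsUnit u ∧
    (p % 6 = 1 →
      (∀ x y : ℤ, (p : ℤ) = x ^ 2 + 3 * y ^ 2 →
        u ^ 2 - (4 * (x : ℤ_[p]) ^ 2 - 2 * (p : ℤ_[p])) * u + (p : ℤ_[p]) ^ 2 = 0) ∧
      ∀ n j : ℕ, 2 * j < p → ∃ R R' : ℤ_[p],
        S (p * n - j) - (u : ℚ_[p]) * S n =
          (p : ℚ_[p]) ^ 3 * (n : ℚ_[p]) ^ 3 * a n * (R : ℚ_[p]) ∧
        (u : ℚ_[p]) * Q (p * n - j) - (p : ℚ_[p]) ^ 2 * Q n =
          (p : ℚ_[p]) ^ 3 * (n : ℚ_[p]) ^ 3 * a n * (R' : ℚ_[p])) ∧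
    (p % 6 = 5 →
      ∀ n j : ℕ, 2 * j < p → ∃ R R' : ℤ_[p],
        18 * S (p * n - j) + (p : ℚ_[p]) ^ 2 * (u : ℚ_[p]) * Q n =
          (p : ℚ_[p]) ^ 3 * (n : ℚ_[p]) ^ 3 * a n * (R : ℚ_[p]) ∧
        (u : ℚ_[p]) * Q (p * n - j) + 18 * S n =
          (p : ℚ_[p]) ^ 3 * (n : ℚ_[p]) ^ 3 * a n * (R' : ℚ_[p])) := by
  have h5 : 5 ≤ p := by
    rcases (Fact.out : p.Prime).eq_two_or_odd with h | h <;> omega
  obtain ⟨u', hu1, hu2, hu3⟩ := MP_54d89f_nt.Dw.exists_unit h5 z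
  obtain rfl : u = u' := by rw [hu, hu3]
  have ea : ∀ k, a k = MP_54d89f_nt.Dw.f (0 : ℚ_[p]) k := fun k => by
    rw [ha, MP_54d89f_nt.Dw.f_at_zero]
  have eS : ∀ N, S N = MP_54d89f_nt.Dw.M 0 (0 : ℚ_[p]) N := fun N => by
    simp [hS, ea, MP_54d89f_nt.Dw.M]
  have eQ : ∀ N, Q N = MP_54d89f_nt.Dw.M 2 (0 : ℚ_[p]) N := fun N => by
    rw [hQ, MP_54d89f_nt.Dw.M]
    refine sum_congr rfl fun k _ => ?_
    rw [ea, MP_54d89f_nt.Dw.e_two]; ring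
  have c18 : ((18 : ℤ_[p]) : ℚ_[p]) = 18 := by exact_mod_cast PadicInt.coe_natCast (p := p) 18
  refine ⟨hu1, fun h => ⟨fun x y hxy => ?_, fun n j hj => ?_⟩, fun h n j hj => ?_⟩
  · have h7 : 7 ≤ p := by omega
    have hg := MP_54d89f_nt.Dw.gam h5
    have hl := MP_54d89f_nt.Dw.lamst h5 hg
    have hb := MP_54d89f_nt.Dw.bnd h7 hg hl
    have hr := MP_54d89f_nt.Dw.root MP_54d89f_nt.Dw.teich hg
      (MP_54d89f_nt.Dw.gau (MP_54d89f_nt.Dw.rob h7 hl hb (MP_54d89f_nt.Dw.mah h7 hl hb))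
        (MP_54d89f_nt.Dw.th h7 hb)) MP_54d89f_nt.Dw.jacI (p / 6) z x y (by omega) hz hxy.symm
    rw [← hu2] at hr
    apply Subtype.ext
    have c4 : ((4 : ℤ_[p]) : ℚ_[p]) = 4 := by exact_mod_cast PadicInt.coe_natCast (p := p) 4
    have c2 : ((2 : ℤ_[p]) : ℚ_[p]) = 2 := by exact_mod_cast PadicInt.coe_natCast (p := p) 2
    simpa [c4, c2] using hr
  · obtain ⟨⟨R, hR⟩, s, R', hs, hR'⟩ :=
      MP_54d89f_nt.Dw.split_case h5 (μ := p / 6) (by omega) hz n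
    obtain ⟨T, hT⟩ := MP_54d89f_nt.Dw.tail h5 0 n j hj
    obtain ⟨T', hT'⟩ := MP_54d89f_nt.Dw.tail h5 2 n j hj
    refine ⟨R + T, u * (R' + T'), ?_, ?_⟩
    · rw [eS, eS, ea, hT, hR, PadicInt.coe_add, hu2]; ring
    · rw [eQ, eQ, ea, hT', hR', PadicInt.coe_mul, PadicInt.coe_add, hu2, ← hs]; ring
  · obtain ⟨⟨s, R, hs, hR⟩, s', R', hs', hR'⟩ :=
      MP_54d89f_nt.Dw.inert_case h5 (μ := p / 6) (by omega) hz n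
    obtain ⟨T, hT⟩ := MP_54d89f_nt.Dw.tail h5 0 n j hj
    obtain ⟨T', hT'⟩ := MP_54d89f_nt.Dw.tail h5 2 n j hj
    refine ⟨18 * (R + T), u * (R' + T'), ?_, ?_⟩
    · rw [eS, eQ, ea, hT, hR, PadicInt.coe_mul, PadicInt.coe_add, c18, hu2]
      linear_combination MP_54d89f_nt.Dw.M 2 (0 : ℚ_[p]) n * hs
    · rw [eS, eQ, ea, hT', hR', PadicInt.coe_mul, PadicInt.coe_add, hu2]
      linear_combination MP_54d89f_nt.Dw.M 0 (0 : ℚ_[p]) n * hs'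

end Pool.Agent.MP_54d89f_nt.Old.DworkCM
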